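import Pool.Agent.V1140.ZT.Mackey

/-!
# Metrizable precompact Mackey topologies on `ℤ` without open subgroups do not exist

In fact no metrizable precompact group topology on `ℤ` is Mackey, see the hand-in for
`MP_19adc1_gt` and the file `Pool/Agent/V1140/ZT/Compat.lean`.
-/

set_option autoImplicit false

namespace Pool.Agent.Results.MP_44d3b9_gt.NoMackeyNoOpenSubgroup

open Pool.Agent.V1140.ZT

/-- There is no group topology on `ℤ` which is metrizable, precompact and Mackey and has no proper
open subgroup. -/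
theorem result : ¬ ∃ τ : TopologicalSpace ℤ, @IsTopologicalAddGroup ℤ τ _ ∧
    @TopologicalSpace.MetrizableSpace ℤ τ ∧ IsPrecompact τ ∧ IsMackey τ ∧
    ∀ K : AddSubgroup ℤ, K ≠ ⊤ → ¬ @IsOpen ℤ τ (K : Set ℤ) := by
  rintro ⟨τ, hg, hm, hpc, hM, -⟩
  exact not_mackey hg hm hpc hM

end Pool.Agent.Results.MP_44d3b9_gt.NoMackeyNoOpenSubgroup
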